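import Pool.Agent.H54.AF.Bas
import Pool.Agent.H65.FIN.Main

/-!
# [H54 AF BLK] The irreducible blocks: finite type, circuits with labels `3`, paths `4, 3, …, 3, 4`
-/

set_option autoImplicit false

namespace Pool.Agent.H54.AF

open Pool.H8.CDW Pool.Agent.H52.PAG Pool.Agent.H75.INF Pool.Agent.H54.TF Pool.Agent.H52.VK Pool.Agent.H34.TG Pool.Agent.H54.BS
  Pool.Agent.H65.FIN

/-- a circuit with at least four nodes and labels `3` (the affine type `A`) -/
def Cir {B : Type} (M : CoxeterMatrix B) : Prop := ∃ n : ℕ, 4 ≤ n ∧ ∃ e : B ≃ ZMod n, ∀ i j, i ≠ j →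
  M i j = if e j = e i + 1 ∨ e i = e j + 1 then 3 else 2

/-- a path with at least four nodes and labels `4, 3, …, 3, 4` (the affine type `C`) -/
def Pth {B : Type} (M : CoxeterMatrix B) : Prop := ∃ n : ℕ, 3 ≤ n ∧ ∃ e : B ≃ Fin (n + 1), ∀ i j, (e i : ℕ) < e j →
  M i j = if (e j : ℕ) = e i + 1 then (if (e i : ℕ) = 0 ∨ (e j : ℕ) = n then 4 else 3) else 2

/-- a star with four leaves and labels `3` (the affine type `D` with five nodes) -/
def Str {B : Type} (M : CoxeterMatrix B) : Prop := ∃ e : B ≃ Fin 5, ∀ i j, i ≠ j → M i j = if e i = 0 ∨ e j = 0 then 3 else 2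

/-- a star with three leaves and labels `3, 3, 4` (the affine type `B` with four nodes) -/
def Frk {B : Type} (M : CoxeterMatrix B) : Prop := ∃ e : B ≃ Fin 4, ∀ i j, i ≠ j →
  M i j = if e i = 0 ∨ e j = 0 then (if e i = 3 ∨ e j = 3 then 4 else 3) else 2

/-- the blocks -/
def Blk {B : Type} (M : CoxeterMatrix B) : Prop := Finite M.Group ∨ Cir M ∨ Pth M ∨ Str M ∨ Frk M

/-- POLY for circuits -/
def PCir : Prop := ∀ (B : Type) (M : CoxeterMatrix B), Cir M → PolF M Set.univ

/-- POLY for paths -/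
def PPth : Prop := ∀ (B : Type) (M : CoxeterMatrix B), Pth M → PolF M Set.univ

/-- POLY for the stars with four leaves -/
def PStr : Prop := ∀ (B : Type) (M : CoxeterMatrix B), Str M → PolF M Set.univ

/-- POLY for the stars with three leaves -/
def PFrk : Prop := ∀ (B : Type) (M : CoxeterMatrix B), Frk M → PolF M Set.univ

theorem Cir.congr {B B' : Type} {M : CoxeterMatrix B} {M' : CoxeterMatrix B'} (e : B ≃ B') (he : ∀ i j, M' (e i) (e j) = M i j)
    (h : Cir M) : Cir M' := by
  obtain ⟨n, hn, f, hf⟩ := h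
  refine ⟨n, hn, e.symm.trans f, fun i j hij => ?_⟩
  have h1 := he (e.symm i) (e.symm j)
  rw [e.apply_symm_apply, e.apply_symm_apply] at h1
  rw [h1, hf _ _ fun h => hij (e.symm.injective h)]
  rfl

theorem Pth.congr {B B' : Type} {M : CoxeterMatrix B} {M' : CoxeterMatrix B'} (e : B ≃ B') (he : ∀ i j, M' (e i) (e j) = M i j)
    (h : Pth M) : Pth M' := by
  obtain ⟨n, hn, f, hf⟩ := h
  refine ⟨n, hn, e.symm.trans f, fun i j hij => ?_⟩
  have h1 := he (e.symm i) (e.symm j)
  rw [e.apply_symm_apply, e.apply_symm_apply] at h1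
  rw [h1, hf _ _ hij]
  rfl

theorem Str.congr {B B' : Type} {M : CoxeterMatrix B} {M' : CoxeterMatrix B'} (e : B ≃ B') (he : ∀ i j, M' (e i) (e j) = M i j)
    (h : Str M) : Str M' := by
  obtain ⟨f, hf⟩ := h
  refine ⟨e.symm.trans f, fun i j hij => ?_⟩
  have h1 := he (e.symm i) (e.symm j)
  rw [e.apply_symm_apply, e.apply_symm_apply] at h1
  rw [h1, hf _ _ fun h => hij (e.symm.injective h)]
  rfl

theorem Frk.congr {B B' : Type} {M : CoxeterMatrix B} {M' : CoxeterMatrix B'} (e : B ≃ B') (he : ∀ i j, M' (e i) (e j) = M i j)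
    (h : Frk M) : Frk M' := by
  obtain ⟨f, hf⟩ := h
  refine ⟨e.symm.trans f, fun i j hij => ?_⟩
  have h1 := he (e.symm i) (e.symm j)
  rw [e.apply_symm_apply, e.apply_symm_apply] at h1
  rw [h1, hf _ _ fun h => hij (e.symm.injective h)]
  rfl

theorem Blk.congr {B B' : Type} {M : CoxeterMatrix B} {M' : CoxeterMatrix B'} (e : B ≃ B') (he : ∀ i j, M' (e i) (e j) = M i j)
    (h : Blk M) : Blk M' := by
  rcases h with h | h | h | h | h
  · left
    have h2 : M.reindex e = M' := by
      ext i j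
      have h1 := he (e.symm i) (e.symm j)
      rw [e.apply_symm_apply, e.apply_symm_apply] at h1
      rw [CoxeterMatrix.reindex_apply, h1]
    rw [← h2]
    exact Finite.of_equiv _ (M.reindexGroupEquiv e).symm.toEquiv
  · exact Or.inr (Or.inl (h.congr e he))
  · exact Or.inr (Or.inr (Or.inl (h.congr e he)))
  · exact Or.inr (Or.inr (Or.inr (Or.inl (h.congr e he))))
  · exact Or.inr (Or.inr (Or.inr (Or.inr (h.congr e he))))

/-- POLY for the blocks -/
theorem polF_blk (hG : SphG) (hb : B1s) (hfo : Fors) (hc : PCir) (hp : PPth) (hs : PStr) (hk : PFrk) {B : Type} {M : CoxeterMatrix B} [Finite B] {T : Set B}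
    (h3 : Tri3 M T) (h : Blk (resM M T)) : PolF M T := by
  have e : Subtype.val '' (Set.univ : Set T) = T := by
    rw [Set.image_univ, Subtype.range_coe]
  rcases h with h | h | h | h | h
  · exact polF_fin hG hb hfo h3 h
  · have := (polF_res T Set.univ).1 (hc T _ h)
    rwa [e] at this
  · have := (polF_res T Set.univ).1 (hp T _ h)
    rwa [e] at this
  · have := (polF_res T Set.univ).1 (hs T _ h)
    rwa [e] at this
  · have := (polF_res T Set.univ).1 (hk T _ h)
    rwa [e] at this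

/-- the girth from the blocks -/
theorem gir_blk (hP : PStep) (hG : SphG) (hb : B1s) (hfo : Fors) (hc : PCir) (hp : PPth) (hs : PStr) (hk : PFrk) {B : Type} {M : CoxeterMatrix B} [Finite B]
    (hM : ∀ i j, M i j ≠ 0) (S : Set B) (h : ∀ L ⊆ S, Irr M L → 3 ≤ L.ncard → Tri3 M L → Blk (resM M L)) {b c : B} (hb' : b ∈ S)
    (hc' : c ∈ S) (hbc : b ≠ c) : Gir (ap M (S \ {b})) (ap M (S \ {c})) (lab (M b c)) :=
  gir_of_polF (polF_irr hP hG hb hfo hM S fun L hL h1 h2 h3 => polF_blk hG hb hfo hc hp hs hk h3 (h L hL h1 h2 h3)) hb' hc' hbc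

end Pool.Agent.H54.AF
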