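import Pool.Agent.H54.AF.Main
import Pool.Agent.H54.BS.Fin
import Pool.Agent.H65.FIN.Asm

/-!
# [H54 AF ASM] The girth of the links from POLY for the blocks
-/

set_option autoImplicit false

namespace Pool.Agent.H54.AF

open CoxeterSystem Pool.H8.CDW Pool.Agent.H52.PAG Pool.Agent.H75.INF Pool.Agent.H54.TF Pool.Agent.H34.TG Pool.Agent.H54.BS
  Pool.Agent.H52.VK

private theorem cdiff {B : Type} (a b : B) : ({a}ᶜ \ {b} : Set B) = ({a, b}ᶜ : Set B) := by
  ext s
  simp only [Set.mem_sdiff, Set.mem_compl_iff, Set.mem_singleton_iff, Set.mem_insert_iff, not_or]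

theorem girBlk_of (hc : PCir) (hp : PPth) (hs : PStr) (hk : PFrk) : GirBlk := by
  intro B _ M hM hW a b c hab hac hbc
  have h2 := gir_blk Pool.Agent.H65.FIN.pstep sphG b1s fors hc hp hs hk hM ({a}ᶜ : Set B) (fun L _ h1 h3 h4 => hW L h1 h3 h4)
    (fun h => hab (Eq.symm h)) (fun h => hac (Eq.symm h)) hbc
  rwa [cdiff, cdiff] at h2

end Pool.Agent.H54.AF
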