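import Pool.Agent.H54.AF.Uni
import Pool.Agent.H54.BS.All
import Pool.Agent.H54.BS.Red

/-!
# [H54 AF BAS] POLY for all sets from POLY for the irreducible sets with spherical triples
-/

set_option autoImplicit false

namespace Pool.Agent.H54.AF

open Pool.H8.CDW Pool.Agent.H52.PAG Pool.Agent.H75.INF Pool.Agent.H54.TF Pool.Agent.H52.VK Pool.Agent.H34.TG Pool.Agent.H54.BS

variable {B : Type} {M : CoxeterMatrix B}

theorem irr_sub {L : Set B} (hI : ¬ Irr M L) : ∃ J J' : Set B, L = J ∪ J' ∧ Disjoint J J' ∧ (∀ i ∈ J, ∀ j ∈ J', M i j = 2) ∧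
    J ⊂ L ∧ J' ⊂ L := by
  unfold Irr at hI
  push Not at hI
  obtain ⟨J, hJ, hne, hJL, h2⟩ := hI
  refine ⟨J, L \ J, (Set.union_sdiff_cancel hJ).symm, Set.disjoint_sdiff_right, fun i hi j hj => h2 i hi j hj.1 hj.2,
    Set.ssubset_iff_subset_ne.2 ⟨hJ, hJL⟩, Set.ssubset_iff_subset_ne.2 ⟨Set.sdiff_subset, ?_⟩⟩
  intro h8
  obtain ⟨x, hx⟩ := hne
  have h9 := hJ hx
  rw [← h8] at h9
  exact h9.2 hx

/-- POLY for finite type, in a subset -/
theorem polF_fin (hG : SphG) (hb : B1s) (hfo : Fors) [Finite B] {T : Set B} (h3 : Tri3 M T) (h : Finite (resM M T).Group) :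
    PolF M T := by
  have e : Subtype.val '' (Set.univ : Set T) = T := by
    rw [Set.image_univ, Subtype.range_coe]
  have := (polF_res T Set.univ).1 (polF_sph hG hb hfo h (tri3_res h3))
  rwa [e] at this

/-- POLY for the sets with spherical triples from the irreducible ones -/
theorem polF_tri (hG : SphG) (hb : B1s) (hfo : Fors) [Finite B] (hM : ∀ i j, M i j ≠ 0) (S : Set B)
    (h : ∀ L ⊆ S, Irr M L → 3 ≤ L.ncard → Tri3 M L → PolF M L) (n : ℕ) :
    ∀ T : Set B, T.ncard = n → T ⊆ S → Tri3 M T → PolF M T := by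
  induction n using Nat.strong_induction_on with
  | _ n ih =>
    intro T hn hT h3
    by_cases hI : Irr M T
    · by_cases hc : 3 ≤ T.ncard
      · exact h T hT hI hc h3
      · refine polF_fin hG hb hfo h3 (fin_all hM T (fun L hL _ hL3 _ => ?_) _ T rfl subset_rfl h3)
        exfalso
        exact hc (hL3.trans (Set.ncard_le_ncard hL (Set.toFinite T)))
    · obtain ⟨J, J', e, hd, h2, hJ, hJ'⟩ := irr_sub hI
      rw [e]
      refine polF_union hd h2 (ih J.ncard ?_ J rfl (hJ.subset.trans hT) ?_) (ih J'.ncard ?_ J' rfl (hJ'.subset.trans hT) ?_)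
      · rw [← hn]
        exact Set.ncard_lt_ncard hJ (Set.toFinite T)
      · exact fun i hi j hj k hk => h3 i (hJ.subset hi) j (hJ.subset hj) k (hJ.subset hk)
      · rw [← hn]
        exact Set.ncard_lt_ncard hJ' (Set.toFinite T)
      · exact fun i hi j hj k hk => h3 i (hJ'.subset hi) j (hJ'.subset hj) k (hJ'.subset hk)

/-- POLY for all sets from the sets with spherical triples -/
theorem pol_tri (hP : PStep) [Finite B] (hM : ∀ i j, M i j ≠ 0) (n : ℕ) :
    ∀ S : Set B, S.ncard = n → (∀ T ⊆ S, Tri3 M T → PolF M T) → PolF M S := by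
  induction n using Nat.strong_induction_on with
  | _ n ih =>
    intro S hn h
    have e : Subtype.val '' (Set.univ : Set S) = S := by
      rw [Set.image_univ, Subtype.range_coe]
    by_cases h3 : Tri3 M S
    · exact h S subset_rfl h3
    · unfold Tri3 at h3
      push Not at h3
      obtain ⟨p, hp, q, hq, r, hr, hpq, hqr, hpr, hs⟩ := h3
      have h2 : ∀ i j : B, i ≠ j → 2 ≤ M i j := by
        intro i j hij
        have h1 := M.off_diagonal _ _ hij
        have h0 := hM i j
        omega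
      have hpol : ∀ t (ht : t ∈ S), Pol (resM M S) ({⟨t, ht⟩}ᶜ : Set S) := by
        intro t ht
        rw [pol_iff, polF_res, val_compl]
        refine ih (S \ {t}).ncard ?_ _ rfl fun T hT => h T (hT.trans Set.sdiff_subset)
        rw [← hn]
        exact Set.ncard_sdiff_singleton_lt_of_mem ht (Set.toFinite S)
      have key : Pol (resM M S) Set.univ := hP S (resM M S) (fun i j => hM i.1 j.1) ⟨p, hp⟩ ⟨q, hq⟩ ⟨r, hr⟩
        (fun e => hpq (congrArg Subtype.val e)) (fun e => hqr (congrArg Subtype.val e)) (fun e => hpr (congrArg Subtype.val e))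
        (wt_sum (M := M) (h2 p q hpq) (h2 q r hqr) (h2 p r hpr) hs) (hpol p hp) (hpol q hq) (hpol r hr)
      rw [pol_iff, polF_res, e] at key
      exact key

/-- POLY for all sets from POLY for the irreducible sets with at least three elements and spherical triples -/
theorem polF_irr (hP : PStep) (hG : SphG) (hb : B1s) (hfo : Fors) [Finite B] (hM : ∀ i j, M i j ≠ 0) (S : Set B)
    (h : ∀ L ⊆ S, Irr M L → 3 ≤ L.ncard → Tri3 M L → PolF M L) : PolF M S :=
  pol_tri hP hM _ S rfl fun T hT h3 => polF_tri hG hb hfo hM S h _ T rfl hT h3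

end Pool.Agent.H54.AF
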