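import Pool.Agent.H54.BS.Defs

/-!
# [H54 AF CMM] Commuting parabolic subgroups
-/

set_option autoImplicit false

namespace Pool.Agent.H54.AF

open Pool.H8.CDW Pool.Agent.H52.PAG Pool.Agent.H75.INF Pool.Agent.H54.TF Pool.Agent.H52.VK Pool.Agent.H34.TG

variable {B : Type} {M : CoxeterMatrix B}

theorem comm_ap {S₁ S₂ : Set B} (h2 : ∀ i ∈ S₁, ∀ j ∈ S₂, M i j = 2) {x y : Art M}
    (hx : x ∈ ap M S₁) (hy : y ∈ ap M S₂) : Commute x y := by
  have h0 : ∀ i ∈ S₁, ∀ j ∈ S₂, Commute (gen M i) (gen M j) := by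
    intro i hi j hj
    have h3 : M i j ≠ 0 := by
      rw [h2 i hi j hj]
      exact two_ne_zero
    have h4 := gen_rel h3
    rw [h2 i hi j hj] at h4
    change gen M i * (gen M j * 1) = gen M j * (gen M i * 1) at h4
    rw [mul_one, mul_one] at h4
    exact h4
  have h1 : ∀ j ∈ S₂, Commute x (gen M j) := by
    intro j hj
    refine ap_induction (P := fun x => Commute x (gen M j)) (Commute.one_left _) ?_ ?_ hx
    · intro x _ k hk h
      exact h.mul_left (h0 k hk j hj)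
    · intro x _ k hk h
      exact h.mul_left (h0 k hk j hj).inv_left
  refine ap_induction (P := fun y => Commute x y) (Commute.one_right _) ?_ ?_ hy
  · intro y _ k hk h
    exact h.mul_right (h1 k hk)
  · intro y _ k hk h
    exact h.mul_right (h1 k hk).inv_right

theorem dec_ap {S₁ S₂ : Set B} (h2 : ∀ i ∈ S₁, ∀ j ∈ S₂, M i j = 2) {x : Art M}
    (hx : x ∈ ap M (S₁ ∪ S₂)) : ∃ x₁ ∈ ap M S₁, ∃ x₂ ∈ ap M S₂, x = x₁ * x₂ := by
  refine ap_induction (P := fun x => ∃ x₁ ∈ ap M S₁, ∃ x₂ ∈ ap M S₂, x = x₁ * x₂) ?_ ?_ ?_ hx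
  · exact ⟨1, one_mem _, 1, one_mem _, (mul_one _).symm⟩
  · rintro x _ k hk ⟨x₁, h1, x₂, h3, rfl⟩
    rcases hk with hk | hk
    · refine ⟨x₁ * gen M k, mul_mem h1 (gen_mem_ap hk), x₂, h3, ?_⟩
      rw [mul_assoc, mul_assoc, (comm_ap h2 (gen_mem_ap hk) h3).eq]
    · exact ⟨x₁, h1, x₂ * gen M k, mul_mem h3 (gen_mem_ap hk), mul_assoc _ _ _⟩
  · rintro x _ k hk ⟨x₁, h1, x₂, h3, rfl⟩
    rcases hk with hk | hk
    · refine ⟨x₁ * (gen M k)⁻¹, mul_mem h1 (inv_mem (gen_mem_ap hk)), x₂, h3, ?_⟩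
      rw [mul_assoc, mul_assoc, (comm_ap h2 (inv_mem (gen_mem_ap hk)) h3).eq]
    · exact ⟨x₁, h1, x₂ * (gen M k)⁻¹, mul_mem h3 (inv_mem (gen_mem_ap hk)), mul_assoc _ _ _⟩

theorem mem_union {S₁ S₂ : Set B} {x y : Art M} (hx : x ∈ ap M S₁) (hy : y ∈ ap M S₂) : x * y ∈ ap M (S₁ ∪ S₂) :=
  mul_mem (ap_mono Set.subset_union_left hx) (ap_mono Set.subset_union_right hy)

end Pool.Agent.H54.AF
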