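import Pool.Agent.H54.BS.Sph

/-!
# [H54 AF TREEF] POLY for forests from the girth of the edges
-/

set_option autoImplicit false

namespace Pool.Agent.H54.AF

open Pool.H8.CDW Pool.Agent.H52.PAG Pool.Agent.H75.INF Pool.Agent.H54.TF Pool.Agent.H52.VK Pool.Agent.H34.TG Pool.Agent.H54.BS

variable {B : Type} {M : CoxeterMatrix B}

/-- POLY for a forest with labels at most `5`, from the girth of the edges -/
theorem polF_tree (hM : ∀ i j, M i j ≠ 0) (h6 : ∀ i j, M i j ≤ 5) (hfo : Forest M)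
    (hG : ∀ b c, 3 ≤ M b c → GS M Set.univ b c)
    (hb : ∀ b c, (M b c = 4 ∨ M b c = 5) → Gir (ap M ({b}ᶜ : Set B)) (ap M ({c}ᶜ : Set B)) 4) : PolF M Set.univ := by
  intro n f hn hc hs
  have hT : TreeP M := fun b c y h1 h2 h4 => tree hM hfo h1 h2 h4
  have h2 : ∀ i, 2 ≤ M (f i).1 (f (i + 1)).1 := by
    intro i
    have h1 := M.off_diagonal _ _ (hc.ne i)
    have h0 := hM (f i).1 (f (i + 1)).1
    omega
  have h5 : ∀ i, M (f i).1 (f (i + 1)).1 ≤ 5 := fun i => h6 _ _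
  have h7 := fsum_ge (n := n) (f := f) fun i => wt_ge (h2 i) (h5 i)
  have h8 : (n : ℝ) < 8 := by linarith
  have h9 : n < 8 := by exact_mod_cast h8
  obtain rfl | rfl | rfl | rfl : n = 4 ∨ n = 5 ∨ n = 6 ∨ n = 7 := by omega
  · exact deg_four hM (fun b c hbc => pt hM hbc (gc_of_gs (hG b c hbc))) hc hs
  · exact deg_five hM hT hc h5 hs
  · exact deg_six hM hT hb hc h5 hs
  · exact deg_seven hM hT hc h5 hs

end Pool.Agent.H54.AF
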