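import Pool.Agent.H54.AF.Asm
import Pool.Agent.H54.CT.Gp
import Pool.Agent.H54.CT.Fk
import Pool.Agent.H9.AT.Cir

/-!
# [H54 AF END] The girth of the links from the blocks
-/

set_option autoImplicit false

namespace Pool.Agent.H54.AF

theorem girBlk : GirBlk := girBlk_of Pool.Agent.H9.AT.pcir (Pool.Agent.H54.CT.ppth_of Pool.Agent.H9.AT.pcir) Pool.Agent.H54.CT.pstr
  Pool.Agent.H54.CT.pfrk

end Pool.Agent.H54.AF
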