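import Pool.Agent.H54.AF.Blk
import Pool.Agent.H9.AT.Defs

/-!
# [H54 AF PC] Circuits in the form of H9/AT
-/

set_option autoImplicit false

namespace Pool.Agent.H54.AF

open Pool.H8.CDW Pool.Agent.H9.AT

variable {B : Type} {M : CoxeterMatrix B}

theorem cdat_of_cir (h : Cir M) : ∃ (N : ℤ) (pi : ℤ → B), Cdat M N pi := by
  obtain ⟨n, hn, e, he⟩ := h
  have hd : ∀ s t : ℤ, ((s : ZMod n) = (t : ZMod n)) ↔ (n : ℤ) ∣ t - s := fun s t =>
    ZMod.intCast_eq_intCast_iff_dvd_sub s t n
  have hn' : (4 : ℤ) ≤ n := by exact_mod_cast hn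
  have hsmall : ∀ k : ℤ, 0 < k → k < n → ¬ (n : ℤ) ∣ k := fun k h1 h2 h3 => by
    have := Int.le_of_dvd h1 h3
    omega
  refine ⟨n, fun s => e.symm (s : ZMod n), hn', fun b => ?_, fun s t => ?_, fun s => ?_, fun s t h0 h1 h2 => ?_⟩
  · obtain ⟨s, hs⟩ := ZMod.intCast_surjective (e b)
    exact ⟨s, by rw [hs, e.symm_apply_apply]⟩
  · rw [e.symm.injective.eq_iff]
    exact hd s t
  · rw [he _ _ ?_, e.apply_symm_apply, e.apply_symm_apply, if_pos]
    · left
      push_cast
      rfl
    · intro h3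
      have h4 := (hd _ _).1 (e.symm.injective h3)
      rw [show s + 1 - s = 1 by ring] at h4
      exact hsmall 1 one_pos (by omega) h4
  · rw [he _ _ fun h3 => h0 ((hd _ _).1 (e.symm.injective h3)), e.apply_symm_apply, e.apply_symm_apply, if_neg]
    rintro (h3 | h3)
    · apply h1
      have h4 := (hd (s + 1) t).1 (by push_cast; exact h3.symm)
      rwa [show t - (s + 1) = t - s - 1 by ring] at h4
    · apply h2
      have h4 := (hd (t + 1) s).1 (by push_cast; exact h3.symm)
      rw [show t - s + 1 = -(s - (t + 1)) by ring]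
      exact (dvd_neg).2 h4

end Pool.Agent.H54.AF
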