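import Pool.Agent.H54.AF.Cmm
import Pool.Agent.H54.TF.Lft

/-!
# [H54 AF UNI] POLY for products (45 min)

`S = J ∪ J'`, disjoint, all labels between `J` and `J'` are `2`. `ap M S = ap M J * ap M J'` (`dec_ap`), the factors commute (`comm_ap`) and meet in `1` (`ap_inter`, `ap M ∅ = ⊥`).
(U1) `jv_mix`: `t ∈ J`, `u ∈ J'`, `x⁻¹ * y ∈ ap M S`: `Jv M S (t, x) (u, y)`: `x⁻¹ * y = a * a'`, the common element is `x * a'` (`a' ∈ ap M J' ≤ ap M (S \ {t})`; `y⁻¹ * (x * a') = a⁻¹`, commuting).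
(U2) `jv_same`: `t, u ∈ J`, `g₀⁻¹ * x = y * z`, `g₀⁻¹ * x' = y' * z'` with `y, y' ∈ ap M J`, `z, z' ∈ ap M J'`: `Jv M S (t, x) (u, x') ↔ Jv M J (t, y) (u, y')`. (→) a common element `p`: `x⁻¹ * p = a * b`
(`a ∈ ap M (J \ {t})`, `b ∈ ap M J'`, `dec_ap` with `S \ {t} = (J \ {t}) ∪ J'`), `x'⁻¹ * p = a' * b'`; so `(y * a)⁻¹ * (y' * a') ∈ ap M J ⊓ ap M J' = ⊥`: the common element is `y * a = y' * a'`.
(←) common element `q` of the right side: `g₀ * q` is one of the left side.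
Proof of the theorem. Let `f` be a chain of length `n` in `S`, not degenerate. All `(f 0).2⁻¹ * (f i).2` are in `ap M S` (induction). Types of `f i` and `f (i + 2)` are in the same factor (`jv_mix`). If `f 0`, `f 1` are of
types in different factors, then the types alternate between the factors (induction over `i`), all weights are `1 / 2` (`lab 2 = 2`), so `fsum = n / 2 ≥ 2`, contradiction. Otherwise all types are in `J` or all types are in `J'`;
say `J` (the other case by symmetry: prove a lemma `aux` for `J` and use it twice with `Set.union_comm`): choose `y i, z i` as functions of the VALUE (`F : Art M → Art M`, so that the new chain is periodic),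
`f' i = ((f i).1, F (f i).2)` is a chain in `J` by `jv_same`, `fsum` is the same, so it is degenerate, so is `f`.
-/

set_option autoImplicit false

namespace Pool.Agent.H54.AF

open Pool.H8.CDW Pool.Agent.H52.PAG Pool.Agent.H75.INF Pool.Agent.H54.TF Pool.Agent.H52.VK Pool.Agent.H34.TG Pool.Agent.H54.BS

variable {B : Type} {M : CoxeterMatrix B}

private theorem diff_left {J J' : Set B} (hd : Disjoint J J') {t : B} (ht : t ∈ J) :
    (J ∪ J') \ {t} = (J \ {t}) ∪ J' := by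
  ext j
  constructor
  · rintro ⟨h1 | h1, h2⟩
    · exact Or.inl ⟨h1, h2⟩
    · exact Or.inr h1
  · rintro (h1 | h1)
    · exact ⟨Or.inl h1.1, h1.2⟩
    · refine ⟨Or.inr h1, fun h3 => ?_⟩
      rw [Set.mem_singleton_iff] at h3
      rw [h3] at h1
      exact Set.disjoint_left.1 hd ht h1

private theorem jv_ap {S : Set B} {x y : B × Art M} (h : Jv M S x y) : x.2⁻¹ * y.2 ∈ ap M S := by
  obtain ⟨p, h1, h3⟩ := h
  have e : x.2⁻¹ * y.2 = (x.2⁻¹ * p) * (y.2⁻¹ * p)⁻¹ := by group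
  rw [e]
  exact mul_mem (ap_mono Set.sdiff_subset h1) (inv_mem (ap_mono Set.sdiff_subset h3))

private theorem jv_sym {S : Set B} {x y : B × Art M} (h : Jv M S x y) : Jv M S y x := by
  obtain ⟨p, hp1, hp2⟩ := h
  exact ⟨p, hp2, hp1⟩

private theorem jv_mix {J J' : Set B} (hd : Disjoint J J') (h2 : ∀ i ∈ J, ∀ j ∈ J', M i j = 2)
    {x y : B × Art M} (hx : x.1 ∈ J) (hy : y.1 ∈ J') (h : x.2⁻¹ * y.2 ∈ ap M (J ∪ J')) :
    Jv M (J ∪ J') x y := by
  obtain ⟨a, ha, a', ha', e⟩ := dec_ap h2 h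
  have hc : Commute a a' := comm_ap h2 ha ha'
  refine ⟨x.2 * a', ?_, ?_⟩
  · have e1 : x.2⁻¹ * (x.2 * a') = a' := by group
    rw [e1]
    refine ap_mono ?_ ha'
    intro j hj
    refine ⟨Or.inr hj, fun h3 => ?_⟩
    rw [Set.mem_singleton_iff] at h3
    rw [h3] at hj
    exact Set.disjoint_left.1 hd hx hj
  · have e1 : y.2⁻¹ * (x.2 * a') = a⁻¹ := by
      have e2 : y.2⁻¹ * (x.2 * a') = (x.2⁻¹ * y.2)⁻¹ * a' := by group
      rw [e2, e, hc.eq]
      group
    rw [e1]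
    refine inv_mem (ap_mono ?_ ha)
    intro j hj
    refine ⟨Or.inl hj, fun h3 => ?_⟩
    rw [Set.mem_singleton_iff] at h3
    rw [h3] at hj
    exact Set.disjoint_left.1 hd hj hy

private theorem jv_same {J J' : Set B} (hd : Disjoint J J') (h2 : ∀ i ∈ J, ∀ j ∈ J', M i j = 2)
    {t u : B} (ht : t ∈ J) (hu : u ∈ J) {g₀ x x' y y' z z' : Art M} (e1 : g₀⁻¹ * x = y * z)
    (e2 : g₀⁻¹ * x' = y' * z') (hy : y ∈ ap M J) (hy' : y' ∈ ap M J) (hz : z ∈ ap M J')
    (hz' : z' ∈ ap M J') : Jv M (J ∪ J') (t, x) (u, x') ↔ Jv M J (t, y) (u, y') := by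
  constructor
  · rintro ⟨p, h1, h3⟩
    change x⁻¹ * p ∈ ap M ((J ∪ J') \ {t}) at h1
    change x'⁻¹ * p ∈ ap M ((J ∪ J') \ {u}) at h3
    rw [diff_left hd ht] at h1
    rw [diff_left hd hu] at h3
    have ht2 : ∀ i ∈ J \ {t}, ∀ j ∈ J', M i j = 2 := fun i hi j hj => h2 i hi.1 j hj
    have hu2 : ∀ i ∈ J \ {u}, ∀ j ∈ J', M i j = 2 := fun i hi j hj => h2 i hi.1 j hj
    obtain ⟨a, ha, b, hb, f1⟩ := dec_ap ht2 h1
    obtain ⟨a', ha', b', hb', f2⟩ := dec_ap hu2 h3
    have haJ : a ∈ ap M J := ap_mono Set.sdiff_subset ha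
    have haJ' : a' ∈ ap M J := ap_mono Set.sdiff_subset ha'
    have c1 : Commute a z := comm_ap h2 haJ hz
    have c2 : Commute a' z' := comm_ap h2 haJ' hz'
    have k1 : g₀⁻¹ * p = (y * a) * (z * b) := by
      have : g₀⁻¹ * p = (g₀⁻¹ * x) * (x⁻¹ * p) := by group
      rw [this, e1, f1]
      calc y * z * (a * b) = y * (z * a) * b := by group
        _ = y * (a * z) * b := by rw [c1.eq]
        _ = (y * a) * (z * b) := by group
    have k2 : g₀⁻¹ * p = (y' * a') * (z' * b') := by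
      have : g₀⁻¹ * p = (g₀⁻¹ * x') * (x'⁻¹ * p) := by group
      rw [this, e2, f2]
      calc y' * z' * (a' * b') = y' * (z' * a') * b' := by group
        _ = y' * (a' * z') * b' := by rw [c2.eq]
        _ = (y' * a') * (z' * b') := by group
    have k3 : (y * a)⁻¹ * (y' * a') = (z * b) * (z' * b')⁻¹ := by
      have k4 : (y * a) * (z * b) = (y' * a') * (z' * b') := k1.symm.trans k2
      calc (y * a)⁻¹ * (y' * a') = (y * a)⁻¹ * ((y' * a') * (z' * b')) * (z' * b')⁻¹ := by group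
        _ = (y * a)⁻¹ * ((y * a) * (z * b)) * (z' * b')⁻¹ := by rw [k4]
        _ = (z * b) * (z' * b')⁻¹ := by group
    have m1 : (y * a)⁻¹ * (y' * a') ∈ ap M J := mul_mem (inv_mem (mul_mem hy haJ)) (mul_mem hy' haJ')
    have m2 : (y * a)⁻¹ * (y' * a') ∈ ap M J' := by
      rw [k3]
      exact mul_mem (mul_mem hz hb) (inv_mem (mul_mem hz' hb'))
    have k5 : (y * a)⁻¹ * (y' * a') ∈ ap M J ⊓ ap M J' := Subgroup.mem_inf.2 ⟨m1, m2⟩
    rw [ap_inter, Set.disjoint_iff_inter_eq_empty.1 hd] at k5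
    have k6 : ap M (∅ : Set B) = ⊥ := by
      unfold ap
      rw [Set.image_empty, Subgroup.closure_empty]
    rw [k6, Subgroup.mem_bot] at k5
    have k7 : y * a = y' * a' := by
      rw [inv_mul_eq_one] at k5
      exact k5
    refine ⟨y * a, ?_, ?_⟩
    · change y⁻¹ * (y * a) ∈ ap M (J \ {t})
      rw [inv_mul_cancel_left]
      exact ha
    · change y'⁻¹ * (y * a) ∈ ap M (J \ {u})
      rw [k7, inv_mul_cancel_left]
      exact ha'
  · rintro ⟨q, h1, h3⟩
    change y⁻¹ * q ∈ ap M (J \ {t}) at h1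
    change y'⁻¹ * q ∈ ap M (J \ {u}) at h3
    refine ⟨g₀ * q, ?_, ?_⟩
    · change x⁻¹ * (g₀ * q) ∈ ap M ((J ∪ J') \ {t})
      have : x⁻¹ * (g₀ * q) = z⁻¹ * (y⁻¹ * q) := by
        have : x⁻¹ * (g₀ * q) = (g₀⁻¹ * x)⁻¹ * q := by group
        rw [this, e1]
        group
      rw [this, diff_left hd ht]
      exact mul_mem (inv_mem (ap_mono Set.subset_union_right hz)) (ap_mono Set.subset_union_left h1)
    · change x'⁻¹ * (g₀ * q) ∈ ap M ((J ∪ J') \ {u})
      have : x'⁻¹ * (g₀ * q) = z'⁻¹ * (y'⁻¹ * q) := by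
        have : x'⁻¹ * (g₀ * q) = (g₀⁻¹ * x')⁻¹ * q := by group
        rw [this, e2]
        group
      rw [this, diff_left hd hu]
      exact mul_mem (inv_mem (ap_mono Set.subset_union_right hz')) (ap_mono Set.subset_union_left h3)

private theorem aux {J J' : Set B} (hd : Disjoint J J') (h2 : ∀ i ∈ J, ∀ j ∈ J', M i j = 2)
    (h : PolF M J) {n : ℕ} {f : ℕ → B × Art M} (hn : 4 ≤ n) (hf : Chn M (J ∪ J') n f)
    (hs : fsum M n f < 2) (hJ : ∀ i, (f i).1 ∈ J) : Deg M (J ∪ J') f := by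
  classical
  have hmem : ∀ i, (f 0).2⁻¹ * (f i).2 ∈ ap M (J ∪ J') := by
    intro i
    induction i with
    | zero =>
      rw [inv_mul_cancel]
      exact one_mem _
    | succ i ih =>
      have e : (f 0).2⁻¹ * (f (i + 1)).2 = ((f 0).2⁻¹ * (f i).2) * ((f i).2⁻¹ * (f (i + 1)).2) := by
        group
      rw [e]
      exact mul_mem ih (jv_ap (hf.adj i))
  have hex : ∀ x : Art M, ∃ y z : Art M, (f 0).2⁻¹ * x ∈ ap M (J ∪ J') →
      (f 0).2⁻¹ * x = y * z ∧ y ∈ ap M J ∧ z ∈ ap M J' := by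
    intro x
    by_cases hx : (f 0).2⁻¹ * x ∈ ap M (J ∪ J')
    · obtain ⟨y, hy, z, hz, e⟩ := dec_ap h2 hx
      exact ⟨y, z, fun _ => ⟨e, hy, hz⟩⟩
    · exact ⟨1, 1, fun h => absurd h hx⟩
  choose F G hFG using hex
  have key : ∀ i j, Jv M (J ∪ J') (f i) (f j) ↔
      Jv M J ((f i).1, F (f i).2) ((f j).1, F (f j).2) := by
    intro i j
    obtain ⟨e1, m1, m2⟩ := hFG (f i).2 (hmem i)
    obtain ⟨e2, m3, m4⟩ := hFG (f j).2 (hmem j)
    exact jv_same hd h2 (hJ i) (hJ j) e1 e2 m1 m3 m2 m4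
  have hc : Chn M J n (fun i => ((f i).1, F (f i).2)) := by
    refine ⟨fun i => ?_, hJ, hf.ne, fun i => (key i (i + 1)).1 (hf.adj i)⟩
    show ((f (i + n)).1, F (f (i + n)).2) = ((f i).1, F (f i).2)
    rw [hf.per i]
  obtain ⟨i, hi⟩ := h n _ hn hc hs
  exact ⟨i, (key i (i + 2)).2 hi⟩

/-- POLY for products -/
theorem polF_union {J J' : Set B} (hd : Disjoint J J') (h2 : ∀ i ∈ J, ∀ j ∈ J', M i j = 2) (h : PolF M J) (h' : PolF M J') :
    PolF M (J ∪ J') := by
  intro n f hn hf hs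
  by_contra hdeg
  have hap : ∀ i, (f i).2⁻¹ * (f (i + 2)).2 ∈ ap M (J ∪ J') := by
    intro i
    have e : (f i).2⁻¹ * (f (i + 2)).2 = ((f i).2⁻¹ * (f (i + 1)).2) * ((f (i + 1)).2⁻¹ * (f (i + 2)).2) := by
      group
    rw [e]
    exact mul_mem (jv_ap (hf.adj i)) (jv_ap (hf.adj (i + 1)))
  have hnot : ∀ b : B, b ∈ J → b ∉ J' := fun b h1 h3 => Set.disjoint_left.1 hd h1 h3
  have hor : ∀ i, (f i).1 ∈ J ∨ (f i).1 ∈ J' := fun i => hf.mem i
  have hstep : ∀ i, (f i).1 ∈ J ↔ (f (i + 2)).1 ∈ J := by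
    intro i
    constructor
    · intro h1
      rcases hor (i + 2) with h3 | h3
      · exact h3
      · exact absurd ⟨i, jv_mix hd h2 h1 h3 (hap i)⟩ hdeg
    · intro h1
      rcases hor i with h3 | h3
      · exact h3
      · refine absurd ⟨i, jv_sym (jv_mix hd h2 h1 h3 ?_)⟩ hdeg
        have e : (f (i + 2)).2⁻¹ * (f i).2 = ((f i).2⁻¹ * (f (i + 2)).2)⁻¹ := by group
        rw [e]
        exact inv_mem (hap i)
  have hpair : ∀ i, ((f (2 * i)).1 ∈ J ↔ (f 0).1 ∈ J) ∧ ((f (2 * i + 1)).1 ∈ J ↔ (f 1).1 ∈ J) := by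
    intro i
    induction i with
    | zero => exact ⟨Iff.rfl, Iff.rfl⟩
    | succ i ih =>
      refine ⟨?_, ?_⟩
      · rw [show 2 * (i + 1) = 2 * i + 2 from by ring, ← hstep]
        exact ih.1
      · rw [show 2 * (i + 1) + 1 = 2 * i + 1 + 2 from by ring, ← hstep]
        exact ih.2
  have hall : ∀ i, ((f i).1 ∈ J ↔ (f 0).1 ∈ J) ∧ i % 2 = 0 ∨ ((f i).1 ∈ J ↔ (f 1).1 ∈ J) ∧ i % 2 = 1 := by
    intro i
    rcases Nat.mod_two_eq_zero_or_one i with h0 | h0
    · left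
      have := (hpair (i / 2)).1
      rw [show 2 * (i / 2) = i from by omega] at this
      exact ⟨this, h0⟩
    · right
      have := (hpair (i / 2)).2
      rw [show 2 * (i / 2) + 1 = i from by omega] at this
      exact ⟨this, h0⟩
  by_cases h01 : (f 0).1 ∈ J ↔ (f 1).1 ∈ J
  · by_cases h0 : (f 0).1 ∈ J
    · refine hdeg (aux hd h2 h hn hf hs fun i => ?_)
      rcases hall i with ⟨h3, -⟩ | ⟨h3, -⟩
      · exact h3.2 h0
      · exact h3.2 (h01.1 h0)
    · have hf' : Chn M (J' ∪ J) n f := by rw [Set.union_comm]; exact hf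
      have h2' : ∀ i ∈ J', ∀ j ∈ J, M i j = 2 := fun i hi j hj => by
        rw [M.symmetric i j]
        exact h2 j hj i hi
      have h3 := aux hd.symm h2' h' hn hf' hs fun i => ?_
      · rw [Set.union_comm] at h3
        exact hdeg h3
      · rcases hor i with h4 | h4
        · exfalso
          rcases hall i with ⟨h3, -⟩ | ⟨h3, -⟩
          · exact h0 (h3.1 h4)
          · exact h0 (h01.2 (h3.1 h4))
        · exact h4
  · have halt : ∀ i, ¬ ((f i).1 ∈ J ↔ (f (i + 1)).1 ∈ J) := by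
      intro i hi
      apply h01
      rcases hall i with ⟨h3, h4⟩ | ⟨h3, h4⟩ <;> rcases hall (i + 1) with ⟨h5, h6⟩ | ⟨h5, h6⟩
      · omega
      · exact h3.symm.trans (hi.trans h5)
      · exact h5.symm.trans (hi.symm.trans h3)
      · omega
    have hw : ∀ i, wt M (f i).1 (f (i + 1)).1 = 1 / 2 := by
      intro i
      have h5 : M (f i).1 (f (i + 1)).1 = 2 := by
        rcases hor i with h3 | h3 <;> rcases hor (i + 1) with h4 | h4
        · exact absurd ⟨fun _ => h4, fun _ => h3⟩ (halt i)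
        · exact h2 _ h3 _ h4
        · rw [M.symmetric]
          exact h2 _ h4 _ h3
        · exact absurd ⟨fun h => absurd h3 (hnot _ h), fun h => absurd h4 (hnot _ h)⟩ (halt i)
      unfold wt
      rw [h5]
      simp [lab]
    unfold fsum at hs
    rw [Finset.sum_congr rfl fun i _ => hw i, Finset.sum_const, Finset.card_range, nsmul_eq_mul] at hs
    have hn' : (4 : ℝ) ≤ n := by exact_mod_cast hn
    linarith

end Pool.Agent.H54.AF
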